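import Pool.Agent.H29.UDP.TAna

/-!
Row PID of the board udp_modules (MP_47c37b): a decomposition of one.
-/

set_option autoImplicit false

namespace Pool.Agent.H1.UDP

open Pool.Agent.H29.UDP Finset

section
variable {R : Type} [CommRing R]

/-- partial sums of the binomial series -/
def bs (n k : ℕ) (b : R) : R := ∑ j ∈ range k, ((n + j).choose j : R) * b ^ j

theorem bs_succ (n k : ℕ) (b : R) :
    bs n (k + 1) b = bs n k b + ((n + k).choose k : R) * b ^ k := sum_range_succ _ _

theorem bs_rec (n : ℕ) (b : R) (k : ℕ) :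
    (1 - b) * bs (n + 1) (k + 1) b = bs n (k + 1) b - ((n + 1 + k).choose k : R) * b ^ (k + 1) := by
  induction k with
  | zero => simp [bs]
  | succ k ih =>
    rw [bs_succ (n + 1) (k + 1), mul_add, ih, bs_succ n (k + 1)]
    have h1 : (n + 1 + (k + 1)).choose (k + 1) = (n + 1 + k).choose k + (n + (k + 1)).choose (k + 1) := by
      have e1 : n + 1 + (k + 1) = (n + 1 + k) + 1 := by ring
      have e2 : n + (k + 1) = n + 1 + k := by ring
      rw [e1, e2, Nat.choose_succ_succ]
    rw [h1]
    push_cast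
    ring

theorem bs_one (n : ℕ) (a b : R) (h : a + b = 1) :
    a ^ (n + 1) * bs n (n + 1) b + b ^ (n + 1) * bs n (n + 1) a = 1 := by
  induction n with
  | zero => simp [bs, h]
  | succ n ih =>
    have hc : ((n + 1 + (n + 1)).choose (n + 1) : R) = 2 * ((n + (n + 1)).choose (n + 1) : R) := by
      have e1 : n + 1 + (n + 1) = (2 * n + 1) + 1 := by ring
      have e2 : n + (n + 1) = 2 * n + 1 := by ring
      rw [e1, e2, Nat.choose_succ_succ, Nat.choose_symm_half]
      push_cast
      ring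
    have hb : a * bs (n + 1) (n + 1 + 1) b =
        bs n (n + 1) b + ((n + (n + 1)).choose (n + 1) : R) * b ^ (n + 1) * (a - b) := by
      have h1 := bs_rec n b (n + 1)
      rw [bs_succ n (n + 1), hc] at h1
      have h2 : a = 1 - b := by rw [← h]; ring
      rw [h2, h1]
      ring
    have ha : b * bs (n + 1) (n + 1 + 1) a =
        bs n (n + 1) a + ((n + (n + 1)).choose (n + 1) : R) * a ^ (n + 1) * (b - a) := by
      have h1 := bs_rec n a (n + 1)
      rw [bs_succ n (n + 1), hc] at h1
      have h2 : b = 1 - a := by rw [← h]; ring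
      rw [h2, h1]
      ring
    calc a ^ (n + 1 + 1) * bs (n + 1) (n + 1 + 1) b + b ^ (n + 1 + 1) * bs (n + 1) (n + 1 + 1) a
        = a ^ (n + 1) * (a * bs (n + 1) (n + 1 + 1) b) +
            b ^ (n + 1) * (b * bs (n + 1) (n + 1 + 1) a) := by ring
      _ = a ^ (n + 1) * bs n (n + 1) b + b ^ (n + 1) * bs n (n + 1) a := by
          rw [ha, hb]
          ring
      _ = 1 := ih

end

/-- the functional which takes the value `F i` at `X ^ i` -/
noncomputable def LF (F : ℕ → ℝ) : Polynomial ℝ →ₗ[ℝ] ℝ :=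
  Polynomial.lsum fun i => (F i) • (LinearMap.id : ℝ →ₗ[ℝ] ℝ)

theorem LF_X (F : ℕ → ℝ) (c : ℝ) (i : ℕ) :
    LF F (Polynomial.C c * Polynomial.X ^ i) = c * F i := by
  rw [LF, Polynomial.lsum_apply, Polynomial.C_mul_X_pow_eq_monomial, Polynomial.sum_monomial_index]
  · simp [mul_comm]
  · simp

theorem expand (j m : ℕ) : (Polynomial.X ^ m * (1 - Polynomial.X) ^ j : Polynomial ℝ) =
    ∑ i ∈ range (j + 1), Polynomial.C ((-1) ^ i * (j.choose i : ℝ)) * Polynomial.X ^ (m + i) := by
  have h1 : (1 - Polynomial.X : Polynomial ℝ) = -Polynomial.X + 1 := by ring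
  rw [h1, add_pow, mul_sum]
  refine sum_congr rfl fun i _ => ?_
  rw [one_pow, mul_one, neg_pow, pow_add, Polynomial.C_mul, Polynomial.C_pow, Polynomial.C_neg,
    Polynomial.C_1, Polynomial.C_eq_natCast]
  ring

theorem choose_le (n j : ℕ) : ((n + j).choose j : ℝ) ≤ 2 ^ n * 2 ^ j := by
  rw [← pow_add]
  exact_mod_cast Nat.choose_le_two_pow (n + j) j

theorem geo_le (q : ℝ) (hq : 2 ≤ q) (m : ℕ) : ∑ j ∈ range m, q ^ j ≤ q ^ m := by
  induction m with
  | zero => simp
  | succ m ih =>
    rw [sum_range_succ, pow_succ]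
    have : 0 < q ^ m := by positivity
    nlinarith

theorem pf_PID : T_PID := by
  intro m hm
  obtain ⟨n, rfl⟩ : ∃ n, m = n + 1 := ⟨m - 1, by omega⟩
  have hn : n + 1 - 1 = n := rfl
  rw [hn]
  refine ⟨fun F => ?_, ?_, ?_⟩
  · have h1 := bs_one n (Polynomial.X : Polynomial ℝ) (1 - Polynomial.X) (by ring)
    have h2 := congrArg (LF F) h1
    have h3 : LF F 1 = F 0 := by
      have := LF_X F 1 0
      simpa using this
    rw [h3, map_add, bs, bs, mul_sum, mul_sum, map_sum, map_sum] at h2
    rw [← h2]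
    congr 1
    · refine sum_congr rfl fun j _ => ?_
      have e : (Polynomial.X ^ (n + 1) * (((n + j).choose j : Polynomial ℝ) *
          (1 - Polynomial.X) ^ j) : Polynomial ℝ) =
          ((n + j).choose j : ℝ) • (Polynomial.X ^ (n + 1) * (1 - Polynomial.X) ^ j) := by
        rw [Polynomial.smul_eq_C_mul, Polynomial.C_eq_natCast]
        ring
      rw [e, map_smul, expand, map_sum, smul_eq_mul]
      congr 1
      refine sum_congr rfl fun i _ => ?_
      rw [LF_X]
    · refine sum_congr rfl fun j _ => ?_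
      have e : ((1 - Polynomial.X) ^ (n + 1) * (((n + j).choose j : Polynomial ℝ) *
          Polynomial.X ^ j) : Polynomial ℝ) =
          ((n + j).choose j : ℝ) • (Polynomial.X ^ j * (1 - Polynomial.X) ^ (n + 1)) := by
        rw [Polynomial.smul_eq_C_mul, Polynomial.C_eq_natCast]
        ring
      rw [e, map_smul, expand, map_sum, smul_eq_mul]
      congr 1
      refine sum_congr rfl fun i _ => ?_
      rw [LF_X, add_comm j i]
  · calc ∑ j ∈ range (n + 1), ((n + j).choose j : ℝ) * 2 ^ j
        ≤ ∑ j ∈ range (n + 1), 2 ^ n * (4 : ℝ) ^ j := by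
          refine sum_le_sum fun j _ => ?_
          refine (mul_le_mul_of_nonneg_right (choose_le n j) (by positivity)).trans (le_of_eq ?_)
          rw [mul_assoc, ← mul_pow]
          norm_num
      _ = 2 ^ n * ∑ j ∈ range (n + 1), (4 : ℝ) ^ j := by rw [mul_sum]
      _ ≤ 2 ^ n * 4 ^ (n + 1) := mul_le_mul_of_nonneg_left (geo_le 4 (by norm_num) _) (by positivity)
      _ ≤ 2 ^ (n + 1) * 4 ^ (n + 1) := by
          refine mul_le_mul_of_nonneg_right ?_ (by positivity)
          exact pow_le_pow_right₀ (by norm_num) (Nat.le_succ n)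
      _ = 8 ^ (n + 1) := by rw [← mul_pow]; norm_num
  · calc ∑ j ∈ range (n + 1), ((n + j).choose j : ℝ)
        ≤ ∑ j ∈ range (n + 1), 2 ^ n * (2 : ℝ) ^ j := sum_le_sum fun j _ => choose_le n j
      _ = 2 ^ n * ∑ j ∈ range (n + 1), (2 : ℝ) ^ j := by rw [mul_sum]
      _ ≤ 2 ^ n * 2 ^ (n + 1) := mul_le_mul_of_nonneg_left (geo_le 2 le_rfl _) (by positivity)
      _ ≤ 2 ^ (n + 1) * 2 ^ (n + 1) := by
          refine mul_le_mul_of_nonneg_right ?_ (by positivity)
          exact pow_le_pow_right₀ (by norm_num) (Nat.le_succ n)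
      _ = 4 ^ (n + 1) := by rw [← mul_pow]; norm_num

end Pool.Agent.H1.UDP
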