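import Pool.Agent.H29.UDP.TAna

/-!
Row UFD of the board udp_modules (MP_47c37b): from polynomial loss to uniform decay.
-/

set_option autoImplicit false

namespace Pool.Agent.H1.UDP

open Pool.Agent.H29.UDP

theorem pf_UFD : T_UFD := by
  intro E _ Φ N p C₀ h1 h2 M
  obtain ⟨Ca, hCa⟩ := h1 0
  obtain ⟨Cb, hCb⟩ := h1 (M + (M + p) * N)
  have h2' : ∀ k l ξ, ‖Φ k ξ - Φ l ξ‖ ≤ |C₀| * (1 + ‖ξ‖) ^ p / ((min k l : ℕ) + 1 : ℝ) := by
    intro k l ξ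
    refine (h2 k l ξ).trans (div_le_div_of_nonneg_right
      (mul_le_mul_of_nonneg_right (le_abs_self _) (by positivity)) (by positivity))
  have htri : ∀ k l ξ, ‖Φ k ξ‖ ≤ ‖Φ l ξ‖ + |C₀| * (1 + ‖ξ‖) ^ p / ((min k l : ℕ) + 1 : ℝ) := by
    intro k l ξ
    have h3 : ‖Φ k ξ‖ ≤ ‖Φ l ξ‖ + ‖Φ k ξ - Φ l ξ‖ := by
      calc ‖Φ k ξ‖ = ‖Φ l ξ + (Φ k ξ - Φ l ξ)‖ := by rw [add_sub_cancel]
        _ ≤ _ := norm_add_le _ _
    exact h3.trans (by linarith [h2' k l ξ])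
  refine ⟨|Ca| + |Cb| * 3 ^ N + |C₀| * 2 ^ p, fun k ξ => ?_⟩
  have hn1 : 0 ≤ |Cb| * 3 ^ N := by positivity
  have hn2 : 0 ≤ |C₀| * 2 ^ p := by positivity
  have hn3 : 0 ≤ |Ca| := abs_nonneg _
  obtain ⟨r, hr⟩ : ∃ r, r = ‖ξ‖ := ⟨_, rfl⟩
  have hr0 : 0 ≤ r := hr ▸ norm_nonneg ξ
  rcases le_or_gt r 1 with hle | hgt
  · have h3 := htri k 0 ξ
    rw [← hr] at h3
    have h4 := hCa 0 ξ
    rw [pow_zero, one_mul, Nat.cast_zero, zero_add, one_pow, mul_one] at h4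
    have h5 : |C₀| * (1 + r) ^ p / ((min k 0 : ℕ) + 1 : ℝ) ≤ |C₀| * 2 ^ p := by
      rw [Nat.min_zero, Nat.cast_zero, zero_add, div_one]
      exact mul_le_mul_of_nonneg_left (pow_le_pow_left₀ (by linarith) (by linarith) p)
        (abs_nonneg _)
    have h6 : r ^ M ≤ 1 := pow_le_one₀ hr0 hle
    have h7 : ‖Φ k ξ‖ ≤ |Ca| + |C₀| * 2 ^ p := by linarith [le_abs_self Ca]
    rw [← hr]
    calc r ^ M * ‖Φ k ξ‖ ≤ 1 * ‖Φ k ξ‖ := mul_le_mul_of_nonneg_right h6 (norm_nonneg _)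
      _ ≤ _ := by linarith
  · obtain ⟨l, hl⟩ : ∃ l, l = ⌈r ^ (M + p)⌉₊ := ⟨_, rfl⟩
    have hq1 : 1 ≤ r ^ (M + p) := one_le_pow₀ hgt.le
    have hl1 : r ^ (M + p) ≤ l := by rw [hl]; exact Nat.le_ceil _
    have hl2 : (l : ℝ) < r ^ (M + p) + 1 := by rw [hl]; exact Nat.ceil_lt_add_one (by positivity)
    have hl3 : (l : ℝ) + 1 ≤ 3 * r ^ (M + p) := by linarith
    have hrp : 0 < r := by linarith
    have key : ∀ m : ℕ, m ≤ l → r ^ M * ‖Φ m ξ‖ ≤ |Cb| * 3 ^ N := by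
      intro m hm
      have h3 := hCb m ξ
      rw [← hr] at h3
      have h4 : Cb * ((m : ℝ) + 1) ^ N ≤ |Cb| * (3 * r ^ (M + p)) ^ N := by
        have hm' : (m : ℝ) ≤ l := by exact_mod_cast hm
        refine mul_le_mul (le_abs_self _) (pow_le_pow_left₀ (by positivity) (by linarith) N)
          (by positivity) (abs_nonneg _)
      have h5 := h3.trans h4
      rw [mul_pow, ← pow_mul, pow_add] at h5
      have h6 : 0 < r ^ ((M + p) * N) := by positivity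
      have h7 : r ^ ((M + p) * N) * (r ^ M * ‖Φ m ξ‖) ≤ r ^ ((M + p) * N) * (|Cb| * 3 ^ N) := by
        linarith
      exact le_of_mul_le_mul_left h7 h6
    rw [← hr]
    rcases le_or_gt k l with hkl | hkl
    · exact (key k hkl).trans (by linarith)
    · have h3 := htri k l ξ
      rw [← hr, Nat.min_eq_right hkl.le] at h3
      have h4 : r ^ M * (|C₀| * (1 + r) ^ p / ((l : ℝ) + 1)) ≤ |C₀| * 2 ^ p := by
        have h5 : (1 + r) ^ p ≤ 2 ^ p * r ^ p := by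
          rw [← mul_pow]
          exact pow_le_pow_left₀ (by linarith) (by linarith) p
        rw [← mul_div_assoc, div_le_iff₀ (by positivity)]
        calc r ^ M * (|C₀| * (1 + r) ^ p) ≤ r ^ M * (|C₀| * (2 ^ p * r ^ p)) := by
              refine mul_le_mul_of_nonneg_left (mul_le_mul_of_nonneg_left h5 (abs_nonneg _))
                (by positivity)
          _ = |C₀| * 2 ^ p * r ^ (M + p) := by rw [pow_add]; ring
          _ ≤ |C₀| * 2 ^ p * ((l : ℝ) + 1) := mul_le_mul_of_nonneg_left (by linarith) hn2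
      calc r ^ M * ‖Φ k ξ‖ ≤ r ^ M * (‖Φ l ξ‖ + |C₀| * (1 + r) ^ p / ((l : ℝ) + 1)) :=
            mul_le_mul_of_nonneg_left h3 (by positivity)
        _ = r ^ M * ‖Φ l ξ‖ + r ^ M * (|C₀| * (1 + r) ^ p / ((l : ℝ) + 1)) := by ring
        _ ≤ _ := by linarith [key l le_rfl]

end Pool.Agent.H1.UDP
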